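import Mathlib

/-!
Positivity of the three-point kernels in dimension 3.
-/

namespace SdpL

open Finset

/-- The three-point kernel: real part of `(w * conj z)^k`, as a polynomial in the cosines. -/
noncomputable def Q : ℕ → ℝ → ℝ → ℝ → ℝ
  | 0, _, _, _ => 1
  | 1, u, v, t => t - u * v
  | (k + 2), u, v, t =>
      2 * (t - u * v) * Q (k + 1) u v t - (1 - u ^ 2) * (1 - v ^ 2) * Q k u v t

theorem re_pow_eq (w z : ℂ) (u v t : ℝ) (hw : Complex.normSq w = 1 - u ^ 2)
    (hz : Complex.normSq z = 1 - v ^ 2) (ht : (w * (starRingEnd ℂ) z).re = t - u * v) (k : ℕ) :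
    ((w * (starRingEnd ℂ) z) ^ k).re = Q k u v t := by
  induction k using Nat.strong_induction_on with
  | _ k ih =>
    match k with
    | 0 => simp [Q]
    | 1 => simpa [Q] using ht
    | (k + 2) =>
      have h1 := ih (k + 1) (by omega)
      have h0 := ih k (by omega)
      set p := w * (starRingEnd ℂ) z with hp
      have hn : Complex.normSq p = (1 - u ^ 2) * (1 - v ^ 2) := by
        rw [hp, Complex.normSq_mul, Complex.normSq_conj, hw, hz]
      have hq : p ^ 2 = 2 * (p.re : ℂ) * p - (Complex.normSq p : ℂ) := by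
        apply Complex.ext
        · simp [pow_two, Complex.normSq_apply]; ring
        · simp [pow_two, Complex.normSq_apply]; ring
      have : p ^ (k + 2) = 2 * (p.re : ℂ) * p ^ (k + 1) - (Complex.normSq p : ℂ) * p ^ k := by
        rw [pow_add p k 2, hq]; ring
      rw [this]
      have e1 : (2 * (p.re : ℂ) * p ^ (k + 1)).re = 2 * p.re * (p ^ (k + 1)).re := by
        have : (2 * (p.re : ℂ)) = ((2 * p.re : ℝ) : ℂ) := by push_cast; ring
        rw [this, Complex.re_ofReal_mul]
      have e2 : ((Complex.normSq p : ℂ) * p ^ k).re = Complex.normSq p * (p ^ k).re := by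
        rw [Complex.re_ofReal_mul]
      rw [Complex.sub_re, e1, e2, h1, h0, hn, ht]
      simp [Q]

theorem sum_sum_nonneg {ι : Type*} (s : Finset ι) (w : ι → ℂ) (g : ι → ℝ) (k : ℕ) :
    0 ≤ ∑ i ∈ s, ∑ j ∈ s, g i * g j * ((w i * (starRingEnd ℂ) (w j)) ^ k).re := by
  have : ∑ i ∈ s, ∑ j ∈ s, g i * g j * ((w i * (starRingEnd ℂ) (w j)) ^ k).re
      = Complex.normSq (∑ i ∈ s, (g i : ℂ) * (w i) ^ k) := by
    rw [← Complex.ofReal_re (Complex.normSq _), Complex.normSq_eq_conj_mul_self, map_sum,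
      Finset.sum_mul_sum, Complex.re_sum]
    rw [Finset.sum_comm]
    refine Finset.sum_congr rfl fun i _ => ?_
    rw [Complex.re_sum]
    refine Finset.sum_congr rfl fun j _ => ?_
    rw [map_mul, Complex.conj_ofReal, map_pow, mul_pow]
    have : ((g i : ℂ) * (starRingEnd ℂ) (w i) ^ k) * ((g j : ℂ) * w j ^ k)
        = ((g i * g j : ℝ) : ℂ) * (w j ^ k * (starRingEnd ℂ) (w i) ^ k) := by
      push_cast; ring
    rw [this, Complex.re_ofReal_mul]
    ring
  rw [this]
  exact Complex.normSq_nonneg _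

/-- Positivity at a pole `n`: for unit vectors `m i` of three-space. -/
theorem pole_nonneg {ι : Type*} (s : Finset ι) (n : EuclideanSpace ℝ (Fin 3)) (hn : ‖n‖ = 1)
    (m : ι → EuclideanSpace ℝ (Fin 3)) (hm : ∀ i ∈ s, ‖m i‖ = 1) (g : ι → ℝ) (k : ℕ) :
    0 ≤ ∑ i ∈ s, ∑ j ∈ s, g i * g j *
      Q k (inner ℝ n (m i)) (inner ℝ n (m j)) (inner ℝ (m i) (m j)) := by
  obtain ⟨b, hb⟩ := Orthonormal.exists_orthonormalBasis_extension_of_card_eq
    (𝕜 := ℝ) (E := EuclideanSpace ℝ (Fin 3)) (ι := Fin 3) (by simp)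
    (v := fun _ => n) (s := {0}) (by
      constructor
      · intro i; simpa using hn
      · intro i j hij
        exact absurd (Subsingleton.elim i j) hij)
  have hb0 : b 0 = n := hb 0 (by simp)
  set w : ι → ℂ := fun i => ⟨inner ℝ (b 1) (m i), inner ℝ (b 2) (m i)⟩ with hw
  have key : ∀ i j, (w i * (starRingEnd ℂ) (w j)).re
      = inner ℝ (m i) (m j) - inner ℝ n (m i) * inner ℝ n (m j) := by
    intro i j
    have h := b.sum_inner_mul_inner (m i) (m j)
    rw [Fin.sum_univ_three, hb0] at h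
    rw [← h]
    simp only [hw, Complex.mul_re, Complex.conj_re, Complex.conj_im]
    rw [real_inner_comm (b 1) (m i), real_inner_comm (b 2) (m i), real_inner_comm n (m i)]
    ring
  have hsq : ∀ i ∈ s, Complex.normSq (w i) = 1 - (inner ℝ n (m i)) ^ 2 := by
    intro i hi
    have h1 := key i i
    rw [real_inner_self_eq_norm_sq, hm i hi] at h1
    rw [Complex.mul_conj, Complex.ofReal_re] at h1
    rw [h1]; ring
  have h := sum_sum_nonneg s w g k
  refine h.trans_eq ?_
  refine Finset.sum_congr rfl fun i hi => Finset.sum_congr rfl fun j hj => ?_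
  rw [re_pow_eq (w i) (w j) _ _ _ (hsq i hi) (hsq j hj) (key i j) k]

end SdpL
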